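import Mathlib
import Pool.Agent.Q151.XI.SdBall

/-!
# No number of barycentric subdivisions makes the cross-index equal to the mapping index

The definitions (`GComplex`, its geometric realization, `GComplex.IsFree`, `E G k`, `ind`,
`GPoset`, `Q G n`, `Xind`, the face poset and the order complex) are in
`Pool.Agent.Q151.XI.Defs`; `GComplex.sd` (the order complex of the face poset) is in
`Pool.Agent.Q151.XI.Sd`.
-/

set_option autoImplicit false

namespace Pool.Agent.Results.MP_172133_co.ManySubdivisions

open Q151.XI

/-- For every nontrivial finite group `G`, every `r ≥ 0` and all positive integers `m < n` there is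
a finite free `G`-simplicial complex `K` with mapping index `m` such that the face poset of the
`r`-fold barycentric subdivision of `K` has cross-index at least `n`. -/
theorem result (G : Type) [Group G] [Fintype G] [Nontrivial G] (r m n : ℕ) (hm : 0 < m)
    (hmn : m < n) :
    ∃ K : GComplex G, K.IsFree ∧ ind G K.Realization = m ∧
      (n : ℕ∞) ≤ Xind (GComplex.sd^[r] K).facePoset ∧
      ind G K.Realization < Xind (GComplex.sd^[r] K).facePoset := by
  obtain ⟨K, h1, h2, h3⟩ := exists_sd G Fintype.one_lt_card r m n hm
  refine ⟨K, h1, h2, h3, ?_⟩
  rw [h2]
  exact lt_of_lt_of_le (by exact_mod_cast hmn) h3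

end Pool.Agent.Results.MP_172133_co.ManySubdivisions
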